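import Pool.Agent.W439.IW.Conj

/-! Project IW: the dual range. -/

set_option autoImplicit false

namespace Pool.Agent.W439.IW.Dual

open MeasureTheory Set Filter Topology
open Pool.Agent.W488.IW Pool.Agent.W439.IW.Cut Pool.Agent.W439.IW.Conj

/-! ### the bilinear identity -/

lemma int_cc {h : ℂ → ℂ} (hc : Continuous h) (hs : HasCompactSupport h) :
    Integrable h (volume : Measure ℂ) := hc.integrable_of_hasCompactSupport hs

/-- integration by parts twice -/
lemma cross {f φ : ℂ → ℂ} (hf : ContDiff ℝ 1 f) (hfc : HasCompactSupport f)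
    (hφ : ContDiff ℝ 2 φ) (v w : ℂ) :
    ∫ z, fderiv ℝ f z v * fderiv ℝ φ z w = - ∫ z, f z * fderiv ℝ (fderiv ℝ φ) z v w := by
  have hφ1 : ContDiff ℝ 1 (fderiv ℝ φ) := hφ.fderiv_right (by norm_num)
  have hg : ContDiff ℝ 1 (fun z => fderiv ℝ φ z w) := hφ1.clm_apply contDiff_const
  have hcf : Continuous f := hf.continuous
  have hcf' : Continuous (fun z => fderiv ℝ f z v) :=
    (hf.continuous_fderiv (by norm_num)).clm_apply continuous_const
  have hfc' : HasCompactSupport (fun z => fderiv ℝ f z v) := by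
    have h := hfc.fderiv ℝ
    refine h.mono' ?_
    intro z hz
    apply subset_tsupport
    intro h0
    apply hz
    show fderiv ℝ f z v = 0
    rw [show fderiv ℝ f z = 0 from h0]; simp
  have hd : ∀ z, fderiv ℝ (fun z => fderiv ℝ φ z w) z v = fderiv ℝ (fderiv ℝ φ) z v w := by
    intro z
    have h1 : HasFDerivAt (fderiv ℝ φ) (fderiv ℝ (fderiv ℝ φ) z) z :=
      (hφ1.differentiable (by norm_num) z).hasFDerivAt
    have h2 := h1.clm_apply (hasFDerivAt_const w z)
    rw [h2.fderiv]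
    simp
  have hcg' : Continuous (fun z => fderiv ℝ (fun z => fderiv ℝ φ z w) z v) :=
    (hg.continuous_fderiv (by norm_num)).clm_apply continuous_const
  have h := integral_mul_fderiv_eq_neg_fderiv_mul_of_integrable (𝕜 := ℂ)
    (μ := (volume : Measure ℂ)) (f := f) (g := fun z => fderiv ℝ φ z w) (v := v)
    (int_cc (hcf'.mul hg.continuous) hfc'.mul_right)
    (int_cc (hcf.mul hcg') hfc.mul_right)
    (int_cc (hcf.mul hg.continuous) hfc.mul_right)
    (fun x _ => hf.differentiable (by norm_num) x)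
    (fun x _ => hg.differentiable (by norm_num) x)
  simp only [hd] at h
  rw [h, neg_neg]

lemma bil {f φ : ℂ → ℂ} (hf : ContDiff ℝ 1 f) (hfc : HasCompactSupport f)
    (hφ : ContDiff ℝ 2 φ) :
    ∫ z, dzb f z * dz φ z = ∫ z, dz f z * dzb φ z := by
  have hφ1 : ContDiff ℝ 1 φ := hφ.of_le (by norm_num)
  have i1 : Integrable (fun z => dzb f z * dz φ z) :=
    int_cc ((continuous_dzb hf).mul (continuous_dz hφ1)) (compact_dzb hfc).mul_right
  have i2 : Integrable (fun z => dz f z * dzb φ z) :=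
    int_cc ((continuous_dz hf).mul (continuous_dzb hφ1)) (compact_dz hfc).mul_right
  have hcf' : ∀ v, Continuous (fun z => fderiv ℝ f z v) := fun v =>
    (hf.continuous_fderiv (by norm_num)).clm_apply continuous_const
  have hcφ' : ∀ v, Continuous (fun z => fderiv ℝ φ z v) := fun v =>
    (hφ1.continuous_fderiv (by norm_num)).clm_apply continuous_const
  have hfc' : ∀ v, HasCompactSupport (fun z => fderiv ℝ f z v) := by
    intro v
    have h := hfc.fderiv ℝ
    refine h.mono' ?_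
    intro z hz
    apply subset_tsupport
    intro h0
    apply hz
    show fderiv ℝ f z v = 0
    rw [show fderiv ℝ f z = 0 from h0]; simp
  have i3 : ∀ v w, Integrable (fun z => fderiv ℝ f z v * fderiv ℝ φ z w) := fun v w =>
    int_cc ((hcf' v).mul (hcφ' w)) (hfc' v).mul_right
  have hsym : ∀ z, fderiv ℝ (fderiv ℝ φ) z Complex.I 1 = fderiv ℝ (fderiv ℝ φ) z 1 Complex.I := by
    intro z
    exact (hφ.contDiffAt.isSymmSndFDerivAt (by simp)) Complex.I 1
  have hc : ∫ z, fderiv ℝ f z Complex.I * fderiv ℝ φ z 1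
      = ∫ z, fderiv ℝ f z 1 * fderiv ℝ φ z Complex.I := by
    rw [cross hf hfc hφ, cross hf hfc hφ]
    simp only [hsym]
  rw [← sub_eq_zero, ← integral_sub i1 i2]
  have hpt : ∀ z, dzb f z * dz φ z - dz f z * dzb φ z
      = (Complex.I / 2) * (fderiv ℝ f z Complex.I * fderiv ℝ φ z 1)
        - (Complex.I / 2) * (fderiv ℝ f z 1 * fderiv ℝ φ z Complex.I) := by
    intro z
    unfold dz dzb
    linear_combination 0 * Complex.I_sq
  simp only [hpt]
  rw [integral_sub ((i3 _ _).const_mul _) ((i3 _ _).const_mul _), integral_const_mul,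
    integral_const_mul, hc, sub_self]

/-! ### duality with test functions -/

lemma memLp_cc {h : ℂ → ℂ} (hc : Continuous h) (hs : HasCompactSupport h) (p : ENNReal) :
    MemLp h p (volume : Measure ℂ) := hc.memLp_of_hasCompactSupport hs

lemma dual_test {p0 : ℝ} (hIW : S_IW p0) (hPV : S_PV) {p q : ℝ} (hpq : p.HolderConjugate q)
    (hq : p0 ≤ q) {f : ℂ → ℂ} (hf : ContDiff ℝ 1 f) (hfc : HasCompactSupport f)
    {ψ : ℂ → ℂ} (hψ : ContDiff ℝ (⊤ : ℕ∞) ψ) (hψc : HasCompactSupport ψ) :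
    ‖∫ z, dzb f z * ψ z‖
      ≤ (∫ z, ‖dz f z‖ ^ p) ^ (1 / p) * ((q - 1) * (∫ z, ‖ψ z‖ ^ q) ^ (1 / q)) := by
  have hq1 : 1 < q := hpq.symm.lt
  have hq0 : 0 < q := by linarith
  have hp0 : 0 < p := hpq.pos
  -- the potential of the conjugate
  have hg : ContDiff ℝ (⊤ : ℕ∞) (cj ψ) := cj_smooth hψ
  have hgc : HasCompactSupport (cj ψ) := by
    apply hψc.mono
    intro z hz h0
    apply hz
    show (starRingEnd ℂ) (ψ z) = 0
    rw [show ψ z = 0 from h0]; simp
  obtain ⟨F, hF, hFg, -, C, hC⟩ := hPV (cj ψ) hg hgc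
  have hD : Dec C F := hC
  set φ := cj F with hφdef
  have hφ : ContDiff ℝ (⊤ : ℕ∞) φ := cj_smooth hF
  have hφ2 : ContDiff ℝ 2 φ := by exact_mod_cast contDiff_infty.1 hφ 2
  have hφ1 : ContDiff ℝ 1 φ := hφ2.of_le (by norm_num)
  have hDφ : Dec C φ := cj_dec hD
  have hdz : ∀ z, dz φ z = ψ z := by
    intro z
    rw [hφdef, dz_cj, hFg]
    simp [cj]
  have h1 : ∫ z, dzb f z * ψ z = ∫ z, dz f z * dzb φ z := by
    rw [← bil hf hfc hφ2]
    simp only [hdz]
  rw [h1]
  have hm1 : MemLp (dz f) (ENNReal.ofReal p) (volume : Measure ℂ) :=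
    memLp_cc (continuous_dz hf) (compact_dz hfc) _
  have hne : ENNReal.ofReal q ≠ 0 := by
    rw [ne_eq, ENNReal.ofReal_eq_zero, not_le]; exact hq0
  have hm2 : MemLp (dzb φ) (ENNReal.ofReal q) (volume : Measure ℂ) := by
    have := (integrable_norm_rpow_iff (μ := (volume : Measure ℂ)) (f := dzb φ)
      (p := ENNReal.ofReal q) (continuous_dzb hφ1).aestronglyMeasurable hne
      ENNReal.ofReal_ne_top).1
    rw [ENNReal.toReal_ofReal hq0.le] at this
    exact this (dzb_integrable hφ1 hDφ hq1)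
  have h2 := integral_mul_norm_le_Lp_mul_Lq hpq hm1 hm2
  have h3 : ‖∫ z, dz f z * dzb φ z‖ ≤ ∫ z, ‖dz f z‖ * ‖dzb φ z‖ := by
    refine (norm_integral_le_integral_norm _).trans ?_
    simp only [norm_mul]
    exact le_rfl
  refine h3.trans (h2.trans ?_)
  apply mul_le_mul_of_nonneg_left _ (by positivity)
  have h4 := ineq_of_decay hIW hq1 hq hφ1 hDφ
  simp only [hdz] at h4
  have h5 : 0 ≤ ∫ z, ‖dzb φ z‖ ^ q := integral_nonneg fun z => by positivity
  have h6 : 0 ≤ ∫ z, ‖ψ z‖ ^ q := integral_nonneg fun z => by positivity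
  calc (∫ z, ‖dzb φ z‖ ^ q) ^ (1 / q) ≤ ((q - 1) ^ q * ∫ z, ‖ψ z‖ ^ q) ^ (1 / q) :=
        Real.rpow_le_rpow h5 h4 (by positivity)
    _ = (q - 1) * (∫ z, ‖ψ z‖ ^ q) ^ (1 / q) := by
        have h7 : 0 ≤ q - 1 := by linarith
        rw [Real.mul_rpow (by positivity) h6, ← Real.rpow_mul h7, mul_one_div_cancel hq0.ne',
          Real.rpow_one]

/-! ### the extremal test function -/

/-- `conj w * |w|^(p-2)` -/
noncomputable def hh0 (p : ℝ) (w : ℂ) : ℂ := (starRingEnd ℂ) w * ((‖w‖ ^ (p - 2) : ℝ) : ℂ)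

lemma norm_hh0 {p : ℝ} (hp : 1 < p) (w : ℂ) : ‖hh0 p w‖ = ‖w‖ ^ (p - 1) := by
  unfold hh0
  rw [norm_mul, RCLike.norm_conj, Complex.norm_real, Real.norm_eq_abs,
    abs_of_nonneg (by positivity)]
  rcases eq_or_ne w 0 with rfl | hw
  · simp only [norm_zero, zero_mul]
    rw [Real.zero_rpow (by linarith)]
  · have h0 : 0 < ‖w‖ := norm_pos_iff.2 hw
    nth_rewrite 1 [← Real.rpow_one ‖w‖]
    rw [← Real.rpow_add h0]
    congr 1; ring

lemma mul_hh0 {p : ℝ} (hp : 1 < p) (w : ℂ) : w * hh0 p w = ((‖w‖ ^ p : ℝ) : ℂ) := by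
  unfold hh0
  rw [← mul_assoc, Complex.mul_conj, Complex.normSq_eq_norm_sq, ← Complex.ofReal_mul]
  congr 1
  rcases eq_or_ne w 0 with rfl | hw
  · simp only [norm_zero]
    rw [Real.zero_rpow (show p ≠ 0 by linarith)]
    simp
  · have h0 : 0 < ‖w‖ := norm_pos_iff.2 hw
    rw [← Real.rpow_natCast ‖w‖ 2, ← Real.rpow_add h0]
    congr 1; push_cast; ring

lemma continuous_hh0 {p : ℝ} (hp : 1 < p) : Continuous (hh0 p) := by
  rw [continuous_iff_continuousAt]
  intro w
  rcases eq_or_ne w 0 with rfl | hw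
  · have h0 : hh0 p 0 = 0 := by simp [hh0]
    rw [ContinuousAt, h0, tendsto_zero_iff_norm_tendsto_zero]
    simp only [norm_hh0 hp]
    have h1 : Continuous (fun w : ℂ => ‖w‖ ^ (p - 1)) :=
      continuous_norm.rpow_const (fun _ => Or.inr (by linarith))
    have h2 := h1.tendsto 0
    simpa [Real.zero_rpow (show p - 1 ≠ 0 by linarith)] using h2
  · unfold hh0
    apply ContinuousAt.mul
    · exact Complex.continuous_conj.continuousAt
    · apply Complex.continuous_ofReal.continuousAt.comp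
      exact continuous_norm.continuousAt.rpow_const (Or.inl (norm_ne_zero_iff.2 hw))

lemma main_aux {p0 : ℝ} (hIW : S_IW p0) (hPV : S_PV) {p q : ℝ} (hpq : p.HolderConjugate q)
    (hq : p0 ≤ q) {f : ℂ → ℂ} (hf : ContDiff ℝ 1 f) (hfc : HasCompactSupport f) :
    ∫ z, ‖dzb f z‖ ^ p
      ≤ (∫ z, ‖dz f z‖ ^ p) ^ (1 / p) * ((q - 1) * (∫ z, ‖dzb f z‖ ^ p) ^ (1 / q)) := by
  have hp1 : 1 < p := hpq.lt
  have hq1 : 1 < q := hpq.symm.lt
  have hq0 : 0 < q := by linarith
  set u := dzb f with hu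
  have hcu : Continuous u := continuous_dzb hf
  have hsu : HasCompactSupport u := compact_dzb hfc
  set ψ0 : ℂ → ℂ := fun z => hh0 p (u z) with hψ0
  have hcψ : Continuous ψ0 := (continuous_hh0 hp1).comp hcu
  have hsψ : HasCompactSupport ψ0 := by
    apply hsu.mono
    intro z hz h0
    apply hz
    show hh0 p (u z) = 0
    rw [show u z = 0 from h0]; simp [hh0]
  have happ : ∀ n : ℕ, ∃ ψ : ℂ → ℂ, ContDiff ℝ (⊤ : ℕ∞) ψ ∧
      (∀ x, dist (ψ x) (ψ0 x) < 1 / ((n : ℝ) + 1)) ∧ Function.support ψ ⊆ Function.support ψ0 := by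
    intro n
    exact hcψ.exists_contDiff_approx (⊤ : ℕ∞) (ε := fun _ => 1 / ((n : ℝ) + 1))
      continuous_const (fun _ => by positivity)
  choose ψ hψ hd hs using happ
  have hψc : ∀ n, HasCompactSupport (ψ n) := fun n => hsψ.mono (hs n)
  obtain ⟨M, hM⟩ := hcψ.bounded_above_of_compact_support hsψ
  obtain ⟨Mu, hMu⟩ := hcu.bounded_above_of_compact_support hsu
  have hM0 : 0 ≤ M := (norm_nonneg _).trans (hM 0)
  have hMu0 : 0 ≤ Mu := (norm_nonneg _).trans (hMu 0)
  have hψb : ∀ n z, ‖ψ n z‖ ≤ M + 1 := by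
    intro n z
    have h1 : ‖ψ n z‖ ≤ ‖ψ0 z‖ + dist (ψ n z) (ψ0 z) := by
      rw [dist_eq_norm]
      have := norm_add_le (ψ0 z) (ψ n z - ψ0 z)
      simpa using this
    have h2 := hd n z
    have h3 : 1 / ((n : ℝ) + 1) ≤ 1 := by
      rw [div_le_one (by positivity)]
      have : (0 : ℝ) ≤ n := n.cast_nonneg
      linarith
    have := hM z
    linarith
  have hlim : ∀ z, Tendsto (fun n => ψ n z) atTop (𝓝 (ψ0 z)) := by
    intro z
    rw [tendsto_iff_dist_tendsto_zero]
    refine squeeze_zero (fun _ => dist_nonneg) (fun n => (hd n z).le) ?_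
    exact tendsto_one_div_add_atTop_nhds_zero_nat
  -- a dominating indicator
  have hK : IsCompact (tsupport ψ0) := hsψ
  have hKm : MeasurableSet (tsupport ψ0) := (isClosed_tsupport ψ0).measurableSet
  have hind : ∀ c : ℝ, Integrable ((tsupport ψ0).indicator (fun _ => c)) (volume : Measure ℂ) := by
    intro c
    rw [integrable_indicator_iff hKm]
    exact integrableOn_const hK.measure_lt_top.ne
  have hzero : ∀ n z, z ∉ tsupport ψ0 → ψ n z = 0 := by
    intro n z hz
    by_contra h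
    exact hz (subset_tsupport _ (hs n h))
  have l1 : Tendsto (fun n => ∫ z, u z * ψ n z) atTop (𝓝 (∫ z, u z * ψ0 z)) := by
    apply tendsto_integral_of_dominated_convergence
      ((tsupport ψ0).indicator (fun _ => Mu * (M + 1)))
    · intro n
      exact (hcu.mul (hψ n).continuous).aestronglyMeasurable
    · exact hind _
    · intro n
      refine Eventually.of_forall fun z => ?_
      by_cases hz : z ∈ tsupport ψ0
      · rw [indicator_of_mem hz, norm_mul]
        exact mul_le_mul (hMu z) (hψb n z) (norm_nonneg _) hMu0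
      · rw [indicator_of_notMem hz, hzero n z hz]; simp
    · refine Eventually.of_forall fun z => ?_
      exact (hlim z).const_mul _
  have l2 : Tendsto (fun n => ∫ z, ‖ψ n z‖ ^ q) atTop (𝓝 (∫ z, ‖ψ0 z‖ ^ q)) := by
    apply tendsto_integral_of_dominated_convergence
      ((tsupport ψ0).indicator (fun _ => (M + 1) ^ q))
    · intro n
      exact ((hψ n).continuous.norm.rpow_const (fun _ => Or.inr hq0.le)).aestronglyMeasurable
    · exact hind _
    · intro n
      refine Eventually.of_forall fun z => ?_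
      rw [Real.norm_eq_abs, abs_of_nonneg (by positivity)]
      by_cases hz : z ∈ tsupport ψ0
      · rw [indicator_of_mem hz]
        exact Real.rpow_le_rpow (norm_nonneg _) (hψb n z) hq0.le
      · rw [indicator_of_notMem hz, hzero n z hz]
        simp [Real.zero_rpow hq0.ne']
    · refine Eventually.of_forall fun z => ?_
      exact ((hlim z).norm).rpow_const (Or.inr hq0.le)
  have hU : ∫ z, u z * ψ0 z = ((∫ z, ‖u z‖ ^ p : ℝ) : ℂ) := by
    calc ∫ z, u z * ψ0 z = ∫ z, ((‖u z‖ ^ p : ℝ) : ℂ) := by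
          congr 1
          funext z
          exact mul_hh0 hp1 (u z)
      _ = ((∫ z, ‖u z‖ ^ p : ℝ) : ℂ) := integral_complex_ofReal
  have hV : ∫ z, ‖ψ0 z‖ ^ q = ∫ z, ‖u z‖ ^ p := by
    congr 1
    funext z
    show ‖hh0 p (u z)‖ ^ q = _
    rw [norm_hh0 hp1, ← Real.rpow_mul (norm_nonneg _), hpq.sub_one_mul_conj]
  have hU0 : 0 ≤ ∫ z, ‖u z‖ ^ p := integral_nonneg fun z => by positivity
  have l3 : Tendsto (fun n => (∫ z, ‖dz f z‖ ^ p) ^ (1 / p) *
      ((q - 1) * (∫ z, ‖ψ n z‖ ^ q) ^ (1 / q))) atTop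
      (𝓝 ((∫ z, ‖dz f z‖ ^ p) ^ (1 / p) * ((q - 1) * (∫ z, ‖ψ0 z‖ ^ q) ^ (1 / q)))) := by
    apply Tendsto.const_mul
    apply Tendsto.const_mul
    exact l2.rpow_const (Or.inr (by positivity))
  have h := le_of_tendsto_of_tendsto' l1.norm l3
    (fun n => dual_test hIW hPV hpq hq hf hfc (hψ n) (hψc n))
  rw [hU, hV, Complex.norm_real, Real.norm_eq_abs, abs_of_nonneg hU0] at h
  exact h

/-- **The dual range.** -/
theorem main (p0 : ℝ) (hPV : S_PV) : S_DUAL p0 := by
  intro hIW h2 p hp1 hp f hf hfc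
  have hp0 : 0 < p := by linarith
  have hpm : 0 < p - 1 := by linarith
  set q := p / (p - 1) with hqdef
  have hpq : p.HolderConjugate q := Real.HolderConjugate.conjExponent hp1
  have hq : p0 ≤ q := by
    rw [hqdef, le_div_iff₀ hpm]
    rw [le_div_iff₀ (by linarith)] at hp
    linarith
  have hq1 : q - 1 = 1 / (p - 1) := by
    rw [hqdef]; field_simp; ring
  have h := main_aux hIW hPV hpq hq hf hfc
  have hU0 : 0 ≤ ∫ z, ‖dzb f z‖ ^ p := integral_nonneg fun z => by positivity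
  have hV0 : 0 ≤ ∫ z, ‖dz f z‖ ^ p := integral_nonneg fun z => by positivity
  rw [← hq1]
  have hqm : 0 < q - 1 := by rw [hq1]; positivity
  set U := ∫ z, ‖dzb f z‖ ^ p with hUdef
  set V := ∫ z, ‖dz f z‖ ^ p with hVdef
  rcases hU0.eq_or_lt with h0 | h0
  · rw [← h0]; positivity
  · have hq0 : 0 < q := by linarith
    have h3 : U = U ^ (1 / p) * U ^ (1 / q) := by
      rw [← Real.rpow_add h0]
      have : 1 / p + 1 / q = 1 := by
        have := hpq.inv_add_inv_eq_one
        simpa [one_div] using this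
      rw [this, Real.rpow_one]
    have h4 : U ^ (1 / p) ≤ V ^ (1 / p) * (q - 1) := by
      have h5 : 0 < U ^ (1 / q) := Real.rpow_pos_of_pos h0 _
      have h6 : U ^ (1 / p) * U ^ (1 / q) ≤ (V ^ (1 / p) * (q - 1)) * U ^ (1 / q) := by
        rw [← h3]
        calc U ≤ V ^ (1 / p) * ((q - 1) * U ^ (1 / q)) := h
          _ = _ := by ring
      exact le_of_mul_le_mul_right h6 h5
    have h7 : (U ^ (1 / p)) ^ p ≤ (V ^ (1 / p) * (q - 1)) ^ p :=
      Real.rpow_le_rpow (by positivity) h4 hp0.le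
    rw [Real.mul_rpow (by positivity) hqm.le, ← Real.rpow_mul hU0, ← Real.rpow_mul hV0,
      one_div_mul_cancel hp0.ne', Real.rpow_one, Real.rpow_one] at h7
    linarith

end Pool.Agent.W439.IW.Dual
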