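import Pool.Agent.W439.IW.Cut

/-! Project IW: conjugation and consequences for the Beurling transform. -/

set_option autoImplicit false

namespace Pool.Agent.W439.IW.Conj

open MeasureTheory Set Filter Topology
open Pool.Agent.W488.IW Pool.Agent.W439.IW.Cut

/-- the conjugate function -/
noncomputable def cj (f : ℂ → ℂ) (z : ℂ) : ℂ := (starRingEnd ℂ) (f z)

lemma fderiv_cj (f : ℂ → ℂ) (z v : ℂ) :
    fderiv ℝ (cj f) z v = (starRingEnd ℂ) (fderiv ℝ f z v) := by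
  have h := ContinuousLinearEquiv.comp_fderiv Complex.conjCLE (f := f) (x := z)
  have h1 : (Complex.conjCLE ∘ f) = cj f := by
    funext w; simp [cj]
  rw [h1] at h
  rw [h]
  simp

lemma norm_fderiv_cj (f : ℂ → ℂ) (z : ℂ) : ‖fderiv ℝ (cj f) z‖ ≤ ‖fderiv ℝ f z‖ := by
  apply ContinuousLinearMap.opNorm_le_bound _ (norm_nonneg _)
  intro v
  rw [fderiv_cj, RCLike.norm_conj]
  exact (fderiv ℝ f z).le_opNorm v

lemma dz_cj (f : ℂ → ℂ) (z : ℂ) : dz (cj f) z = (starRingEnd ℂ) (dzb f z) := by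
  unfold dz dzb
  rw [fderiv_cj, fderiv_cj]
  simp only [map_mul, map_add, Complex.conj_I, map_div₀, map_one, map_ofNat]
  ring

lemma dzb_cj (f : ℂ → ℂ) (z : ℂ) : dzb (cj f) z = (starRingEnd ℂ) (dz f z) := by
  unfold dz dzb
  rw [fderiv_cj, fderiv_cj]
  simp only [map_mul, map_sub, Complex.conj_I, map_div₀, map_one, map_ofNat]
  ring

lemma cj_smooth {n : WithTop ℕ∞} {f : ℂ → ℂ} (hf : ContDiff ℝ n f) : ContDiff ℝ n (cj f) := by
  have h1 : (Complex.conjCLE ∘ f) = cj f := by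
    funext w; simp [cj]
  rw [← h1]
  exact Complex.conjCLE.contDiff.comp hf

lemma cj_dec {f : ℂ → ℂ} {C : ℝ} (hC : Dec C f) : Dec C (cj f) := by
  intro z
  refine ⟨?_, ?_⟩
  · unfold cj
    rw [RCLike.norm_conj]
    exact (hC z).1
  · calc ‖fderiv ℝ (cj f) z‖ * (1 + ‖z‖ ^ 2) ≤ ‖fderiv ℝ f z‖ * (1 + ‖z‖ ^ 2) := by
          gcongr
          exact norm_fderiv_cj f z
      _ ≤ C := (hC z).2

/-- the inequality for the potential -/
theorem pot {p0 : ℝ} (hIW : S_IW p0) {q : ℝ} (hq : 1 < q) (hpq : p0 ≤ q) {f : ℂ → ℂ}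
    (hf : ContDiff ℝ 1 f) {C : ℝ} (hC : Dec C f) :
    ∫ z, ‖dz f z‖ ^ q ≤ (q - 1) ^ q * ∫ z, ‖dzb f z‖ ^ q := by
  have h := ineq_of_decay hIW hq hpq (cj_smooth hf) (cj_dec hC)
  simp only [dz_cj, dzb_cj, RCLike.norm_conj] at h
  exact h

end Pool.Agent.W439.IW.Conj
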