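import Pool.Agent.W488.IW.Stm

/-! Project IW: cut-off argument, from compactly supported functions to functions with decay. -/

set_option autoImplicit false

namespace Pool.Agent.W439.IW.Cut

open MeasureTheory Set Filter Topology
open Pool.Agent.W488.IW

lemma norm_dz_le (f : ℂ → ℂ) (z : ℂ) : ‖dz f z‖ ≤ ‖fderiv ℝ f z‖ := by
  unfold dz
  have h1 : ‖fderiv ℝ f z 1‖ ≤ ‖fderiv ℝ f z‖ := by
    simpa using (fderiv ℝ f z).le_opNorm 1
  have h2 : ‖Complex.I * fderiv ℝ f z Complex.I‖ ≤ ‖fderiv ℝ f z‖ := by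
    rw [norm_mul, Complex.norm_I, one_mul]
    simpa using (fderiv ℝ f z).le_opNorm Complex.I
  have h3 := norm_sub_le (fderiv ℝ f z 1) (Complex.I * fderiv ℝ f z Complex.I)
  rw [norm_mul]
  have h4 : ‖(1 / 2 : ℂ)‖ = 1 / 2 := by norm_num
  rw [h4]
  linarith

lemma norm_dzb_le (f : ℂ → ℂ) (z : ℂ) : ‖dzb f z‖ ≤ ‖fderiv ℝ f z‖ := by
  unfold dzb
  have h1 : ‖fderiv ℝ f z 1‖ ≤ ‖fderiv ℝ f z‖ := by
    simpa using (fderiv ℝ f z).le_opNorm 1
  have h2 : ‖Complex.I * fderiv ℝ f z Complex.I‖ ≤ ‖fderiv ℝ f z‖ := by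
    rw [norm_mul, Complex.norm_I, one_mul]
    simpa using (fderiv ℝ f z).le_opNorm Complex.I
  have h3 := norm_add_le (fderiv ℝ f z 1) (Complex.I * fderiv ℝ f z Complex.I)
  rw [norm_mul]
  have h4 : ‖(1 / 2 : ℂ)‖ = 1 / 2 := by norm_num
  rw [h4]
  linarith

lemma continuous_dz {f : ℂ → ℂ} (hf : ContDiff ℝ 1 f) : Continuous (dz f) := by
  unfold dz
  have h := hf.continuous_fderiv (by norm_num)
  fun_prop

lemma continuous_dzb {f : ℂ → ℂ} (hf : ContDiff ℝ 1 f) : Continuous (dzb f) := by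
  unfold dzb
  have h := hf.continuous_fderiv (by norm_num)
  fun_prop

lemma dz_congr {f g : ℂ → ℂ} {z : ℂ} (h : f =ᶠ[𝓝 z] g) : dz f z = dz g z := by
  unfold dz; rw [h.fderiv_eq]

lemma dzb_congr {f g : ℂ → ℂ} {z : ℂ} (h : f =ᶠ[𝓝 z] g) : dzb f z = dzb g z := by
  unfold dzb; rw [h.fderiv_eq]

lemma compact_dz {f : ℂ → ℂ} (hf : HasCompactSupport f) : HasCompactSupport (dz f) := by
  have h := hf.fderiv ℝ
  refine h.mono' ?_
  intro z hz
  apply subset_tsupport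
  intro h0
  apply hz
  show dz f z = 0
  unfold dz
  rw [show fderiv ℝ f z = 0 from h0]; simp

lemma compact_dzb {f : ℂ → ℂ} (hf : HasCompactSupport f) : HasCompactSupport (dzb f) := by
  have h := hf.fderiv ℝ
  refine h.mono' ?_
  intro z hz
  apply subset_tsupport
  intro h0
  apply hz
  show dzb f z = 0
  unfold dzb
  rw [show fderiv ℝ f z = 0 from h0]; simp

/-- the basic bump -/
noncomputable def bb : ContDiffBump (0 : ℂ) := ⟨1, 2, one_pos, one_lt_two⟩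

/-- the cut-off at scale `n + 1` -/
noncomputable def chi (n : ℕ) (z : ℂ) : ℝ := bb (((n : ℝ) + 1)⁻¹ • z)

lemma chi_smooth (n : ℕ) : ContDiff ℝ 1 (chi n) := by
  unfold chi
  exact bb.contDiff.comp (contDiff_const_smul _)

lemma chi_compact (n : ℕ) : HasCompactSupport (chi n) := by
  have h := bb.hasCompactSupport
  have hn : ((n : ℝ) + 1)⁻¹ ≠ 0 := by positivity
  exact h.comp_homeomorph (Homeomorph.smulOfNeZero _ hn)

lemma chi_nonneg (n : ℕ) (z : ℂ) : 0 ≤ chi n z := bb.nonneg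
lemma chi_le_one (n : ℕ) (z : ℂ) : chi n z ≤ 1 := bb.le_one

lemma chi_one (n : ℕ) (z : ℂ) (hz : ‖z‖ ≤ n + 1) : chi n z = 1 := by
  unfold chi
  apply bb.one_of_mem_closedBall
  rw [mem_closedBall_zero_iff, norm_smul, Real.norm_eq_abs, abs_of_pos (by positivity)]
  show _ ≤ (1 : ℝ)
  rw [inv_mul_le_iff₀ (by positivity)]
  linarith

lemma exists_B : ∃ B : ℝ, 0 ≤ B ∧ ∀ z, ‖fderiv ℝ bb z‖ ≤ B := by
  have h1 : Continuous (fderiv ℝ (bb : ℂ → ℝ)) :=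
    (bb.contDiff (n := 1)).continuous_fderiv (by norm_num)
  have h2 : HasCompactSupport (fderiv ℝ (bb : ℂ → ℝ)) := bb.hasCompactSupport.fderiv ℝ
  obtain ⟨B, hB⟩ := h1.bounded_above_of_compact_support h2
  exact ⟨max B 0, le_max_right _ _, fun z => (hB z).trans (le_max_left _ _)⟩

lemma chi_fderiv (n : ℕ) (z : ℂ) :
    fderiv ℝ (chi n) z = ((n : ℝ) + 1)⁻¹ • fderiv ℝ bb (((n : ℝ) + 1)⁻¹ • z) := by
  have := fderiv_comp_smul (𝕜 := ℝ) (f := (bb : ℂ → ℝ)) (x := z) (c := ((n : ℝ) + 1)⁻¹)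
  exact this

lemma bb_fderiv_zero (z : ℂ) (hz : 2 < ‖z‖) : fderiv ℝ bb z = 0 := by
  have h : (bb : ℂ → ℝ) =ᶠ[𝓝 z] fun _ => 0 := by
    have : {w : ℂ | 2 < ‖w‖} ∈ 𝓝 z := (isOpen_lt continuous_const continuous_norm).mem_nhds hz
    filter_upwards [this] with w hw
    apply bb.zero_of_le_dist
    rw [dist_zero_right]
    exact le_of_lt hw
  rw [h.fderiv_eq]; simp

lemma chi_fderiv_bound {B : ℝ} (hB0 : 0 ≤ B) (hB : ∀ z, ‖fderiv ℝ bb z‖ ≤ B) (n : ℕ) (z : ℂ) :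
    ‖fderiv ℝ (chi n) z‖ * (1 + ‖z‖) ≤ 3 * B := by
  rw [chi_fderiv, norm_smul, Real.norm_eq_abs, abs_of_pos (by positivity)]
  by_cases hz : 2 < ‖((n : ℝ) + 1)⁻¹ • z‖
  · rw [bb_fderiv_zero _ hz]
    simp [hB0]
  · push Not at hz
    rw [norm_smul, Real.norm_eq_abs, abs_of_pos (by positivity), inv_mul_le_iff₀ (by positivity)]
      at hz
    have h1 : 1 + ‖z‖ ≤ 3 * ((n : ℝ) + 1) := by
      have : (0 : ℝ) ≤ n := n.cast_nonneg
      linarith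
    have h2 := hB (((n : ℝ) + 1)⁻¹ • z)
    calc ((n : ℝ) + 1)⁻¹ * ‖fderiv ℝ bb (((n : ℝ) + 1)⁻¹ • z)‖ * (1 + ‖z‖)
        ≤ ((n : ℝ) + 1)⁻¹ * B * (3 * ((n : ℝ) + 1)) := by gcongr
      _ = 3 * B := by field_simp

/-- decay of a function and its derivative -/
def Dec (C : ℝ) (φ : ℂ → ℂ) : Prop :=
  ∀ z, ‖φ z‖ * (1 + ‖z‖) ≤ C ∧ ‖fderiv ℝ φ z‖ * (1 + ‖z‖ ^ 2) ≤ C

lemma Dec.nonneg {C : ℝ} {φ : ℂ → ℂ} (h : Dec C φ) : 0 ≤ C :=
  le_trans (by positivity) (h 0).1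

/-- the truncated function -/
noncomputable def tr (φ : ℂ → ℂ) (n : ℕ) (z : ℂ) : ℂ := chi n z • φ z

lemma tr_smooth {φ : ℂ → ℂ} (hφ : ContDiff ℝ 1 φ) (n : ℕ) : ContDiff ℝ 1 (tr φ n) :=
  (chi_smooth n).smul hφ

lemma tr_compact (φ : ℂ → ℂ) (n : ℕ) : HasCompactSupport (tr φ n) :=
  (chi_compact n).smul_right

lemma tr_bound {φ : ℂ → ℂ} (hφ : ContDiff ℝ 1 φ) {B : ℝ} (hB0 : 0 ≤ B)
    (hB : ∀ z, ‖fderiv ℝ bb z‖ ≤ B) {C : ℝ} (hC : Dec C φ) (n : ℕ) (z : ℂ) :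
    ‖fderiv ℝ (tr φ n) z‖ ≤ (3 * B * C + 2 * C) * (1 + ‖z‖) ^ (-2 : ℝ) := by
  have hC0 := hC.nonneg
  have h0 : 0 < 1 + ‖z‖ := by positivity
  have hd : HasFDerivAt (tr φ n)
      (chi n z • fderiv ℝ φ z + (fderiv ℝ (chi n) z).smulRight (φ z)) z := by
    have h1 : HasFDerivAt (chi n) (fderiv ℝ (chi n) z) z :=
      ((chi_smooth n).differentiable (by norm_num) z).hasFDerivAt
    have h2 : HasFDerivAt φ (fderiv ℝ φ z) z :=
      (hφ.differentiable (by norm_num) z).hasFDerivAt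
    exact h1.smul h2
  rw [hd.fderiv]
  have h1 : ‖chi n z • fderiv ℝ φ z‖ ≤ ‖fderiv ℝ φ z‖ := by
    rw [norm_smul, Real.norm_eq_abs, abs_of_nonneg (chi_nonneg n z)]
    exact mul_le_of_le_one_left (norm_nonneg _) (chi_le_one n z)
  have h2 : ‖(fderiv ℝ (chi n) z).smulRight (φ z)‖ ≤ ‖fderiv ℝ (chi n) z‖ * ‖φ z‖ := by
    rw [ContinuousLinearMap.norm_smulRight_apply]
  have h3 : ‖fderiv ℝ φ z‖ * (1 + ‖z‖) ^ 2 ≤ 2 * C := by
    have := (hC z).2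
    have h4 : (1 + ‖z‖) ^ 2 ≤ 2 * (1 + ‖z‖ ^ 2) := by nlinarith [sq_nonneg (1 - ‖z‖)]
    calc ‖fderiv ℝ φ z‖ * (1 + ‖z‖) ^ 2 ≤ ‖fderiv ℝ φ z‖ * (2 * (1 + ‖z‖ ^ 2)) := by gcongr
      _ ≤ 2 * C := by linarith
  have h4 : ‖fderiv ℝ (chi n) z‖ * ‖φ z‖ * (1 + ‖z‖) ^ 2 ≤ 3 * B * C := by
    calc ‖fderiv ℝ (chi n) z‖ * ‖φ z‖ * (1 + ‖z‖) ^ 2
        = (‖fderiv ℝ (chi n) z‖ * (1 + ‖z‖)) * (‖φ z‖ * (1 + ‖z‖)) := by ring
      _ ≤ (3 * B) * C := by
        apply mul_le_mul (chi_fderiv_bound hB0 hB n z) (hC z).1 (by positivity) (by positivity)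
  have h5 : (1 + ‖z‖) ^ (-2 : ℝ) = ((1 + ‖z‖) ^ 2)⁻¹ := by
    rw [Real.rpow_neg h0.le]
    congr 1
    exact_mod_cast Real.rpow_natCast (1 + ‖z‖) 2
  rw [h5, ← div_eq_mul_inv, le_div_iff₀ (by positivity)]
  calc ‖chi n z • fderiv ℝ φ z + (fderiv ℝ (chi n) z).smulRight (φ z)‖ * (1 + ‖z‖) ^ 2
      ≤ (‖fderiv ℝ φ z‖ + ‖fderiv ℝ (chi n) z‖ * ‖φ z‖) * (1 + ‖z‖) ^ 2 := by
        gcongr
        exact (norm_add_le _ _).trans (add_le_add h1 h2)
    _ ≤ 3 * B * C + 2 * C := by nlinarith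

lemma tr_eq (φ : ℂ → ℂ) (z : ℂ) (n : ℕ) (hn : ‖z‖ < n + 1) : tr φ n =ᶠ[𝓝 z] φ := by
  have : {w : ℂ | ‖w‖ < (n : ℝ) + 1} ∈ 𝓝 z :=
    (isOpen_lt continuous_norm continuous_const).mem_nhds hn
  filter_upwards [this] with w hw
  unfold tr
  rw [chi_one n w (le_of_lt hw), one_smul]

lemma maj_integrable (K q : ℝ) (hq : 1 < q) :
    Integrable (fun z : ℂ => (K * (1 + ‖z‖) ^ (-2 : ℝ)) ^ q) := by
  by_cases hK : 0 ≤ K
  · have h1 : (fun z : ℂ => (K * (1 + ‖z‖) ^ (-2 : ℝ)) ^ q)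
        = fun z : ℂ => K ^ q * (1 + ‖z‖) ^ (-(2 * q)) := by
      funext z
      have h0 : 0 < 1 + ‖z‖ := by positivity
      rw [Real.mul_rpow hK (by positivity), ← Real.rpow_mul h0.le]
      congr 2; ring
    rw [h1]
    apply Integrable.const_mul
    apply integrable_one_add_norm
    rw [Complex.finrank_real_complex]
    push_cast
    linarith
  · push Not at hK
    have h1 : (fun z : ℂ => (K * (1 + ‖z‖) ^ (-2 : ℝ)) ^ q)
        = fun z : ℂ => Real.cos (q * Real.pi) * ((-K) ^ q * (1 + ‖z‖) ^ (-(2 * q))) := by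
      funext z
      have h0 : 0 < 1 + ‖z‖ := by positivity
      have h2 : K * (1 + ‖z‖) ^ (-2 : ℝ) < 0 := mul_neg_of_neg_of_pos hK (by positivity)
      have h3 : 0 ≤ -K := by linarith
      rw [Real.rpow_def_of_neg h2, mul_comm]
      congr 1
      have h4 : Real.log (K * (1 + ‖z‖) ^ (-2 : ℝ)) = Real.log ((-K) * (1 + ‖z‖) ^ (-2 : ℝ)) := by
        rw [← Real.log_neg_eq_log]
        congr 1; ring
      rw [h4, ← Real.rpow_def_of_pos (mul_pos (neg_pos.2 hK) (by positivity) :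
        (0:ℝ) < (-K) * (1 + ‖z‖) ^ (-2 : ℝ)) q,
        Real.mul_rpow h3 (by positivity), ← Real.rpow_mul h0.le]
      congr 2; ring
    rw [h1]
    apply Integrable.const_mul
    apply Integrable.const_mul
    apply integrable_one_add_norm
    rw [Complex.finrank_real_complex]
    push_cast
    linarith

lemma decay_bound {φ : ℂ → ℂ} {C : ℝ} (hC : Dec C φ) (z : ℂ) :
    ‖fderiv ℝ φ z‖ ≤ (2 * C) * (1 + ‖z‖) ^ (-2 : ℝ) := by
  have h0 : 0 < 1 + ‖z‖ := by positivity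
  have h3 : ‖fderiv ℝ φ z‖ * (1 + ‖z‖) ^ 2 ≤ 2 * C := by
    have := (hC z).2
    have h4 : (1 + ‖z‖) ^ 2 ≤ 2 * (1 + ‖z‖ ^ 2) := by nlinarith [sq_nonneg (1 - ‖z‖)]
    calc ‖fderiv ℝ φ z‖ * (1 + ‖z‖) ^ 2 ≤ ‖fderiv ℝ φ z‖ * (2 * (1 + ‖z‖ ^ 2)) := by gcongr
      _ ≤ 2 * C := by linarith
  have h5 : (1 + ‖z‖) ^ (-2 : ℝ) = ((1 + ‖z‖) ^ 2)⁻¹ := by
    rw [Real.rpow_neg h0.le]
    congr 1
    exact_mod_cast Real.rpow_natCast (1 + ‖z‖) 2
  rw [h5, ← div_eq_mul_inv, le_div_iff₀ (by positivity)]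
  exact h3

lemma dz_integrable {φ : ℂ → ℂ} (hφ : ContDiff ℝ 1 φ) {C : ℝ} (hC : Dec C φ) {q : ℝ}
    (hq : 1 < q) : Integrable (fun z => ‖dz φ z‖ ^ q) := by
  refine (maj_integrable (2 * C) q hq).mono' ?_ ?_
  · exact ((continuous_dz hφ).norm.rpow_const (fun _ => Or.inr (by linarith))).aestronglyMeasurable
  · refine Eventually.of_forall fun z => ?_
    rw [Real.norm_eq_abs, abs_of_nonneg (by positivity)]
    exact Real.rpow_le_rpow (norm_nonneg _) ((norm_dz_le φ z).trans (decay_bound hC z))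
      (by linarith)

lemma dzb_integrable {φ : ℂ → ℂ} (hφ : ContDiff ℝ 1 φ) {C : ℝ} (hC : Dec C φ) {q : ℝ}
    (hq : 1 < q) : Integrable (fun z => ‖dzb φ z‖ ^ q) := by
  refine (maj_integrable (2 * C) q hq).mono' ?_ ?_
  · exact ((continuous_dzb hφ).norm.rpow_const (fun _ => Or.inr (by linarith))).aestronglyMeasurable
  · refine Eventually.of_forall fun z => ?_
    rw [Real.norm_eq_abs, abs_of_nonneg (by positivity)]
    exact Real.rpow_le_rpow (norm_nonneg _) ((norm_dzb_le φ z).trans (decay_bound hC z))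
      (by linarith)

/-- the sharp inequality extends to functions with decay -/
theorem ineq_of_decay {p0 : ℝ} (hIW : S_IW p0) {q : ℝ} (hq : 1 < q) (hpq : p0 ≤ q) {φ : ℂ → ℂ}
    (hφ : ContDiff ℝ 1 φ) {C : ℝ} (hC : Dec C φ) :
    ∫ z, ‖dzb φ z‖ ^ q ≤ (q - 1) ^ q * ∫ z, ‖dz φ z‖ ^ q := by
  obtain ⟨B, hB0, hB⟩ := exists_B
  have hev : ∀ z : ℂ, ∀ᶠ n : ℕ in atTop, tr φ n =ᶠ[𝓝 z] φ := by
    intro z
    obtain ⟨N, hN⟩ := exists_nat_gt ‖z‖
    filter_upwards [eventually_ge_atTop N] with n hn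
    apply tr_eq
    have : (N : ℝ) ≤ n := by exact_mod_cast hn
    linarith
  have h1 : Tendsto (fun n : ℕ => ∫ z, ‖dzb (tr φ n) z‖ ^ q) atTop (𝓝 (∫ z, ‖dzb φ z‖ ^ q)) := by
    apply tendsto_integral_of_dominated_convergence
      (fun z : ℂ => ((3 * B * C + 2 * C) * (1 + ‖z‖) ^ (-2 : ℝ)) ^ q)
    · intro n
      exact ((continuous_dzb (tr_smooth hφ n)).norm.rpow_const
        (fun _ => Or.inr (by linarith))).aestronglyMeasurable
    · exact maj_integrable _ q hq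
    · intro n
      refine Eventually.of_forall fun z => ?_
      rw [Real.norm_eq_abs, abs_of_nonneg (by positivity)]
      exact Real.rpow_le_rpow (norm_nonneg _)
        ((norm_dzb_le _ z).trans (tr_bound hφ hB0 hB hC n z)) (by linarith)
    · refine Eventually.of_forall fun z => ?_
      apply tendsto_const_nhds.congr'
      filter_upwards [hev z] with n hn
      rw [dzb_congr hn]
  have h2 : Tendsto (fun n : ℕ => ∫ z, ‖dz (tr φ n) z‖ ^ q) atTop (𝓝 (∫ z, ‖dz φ z‖ ^ q)) := by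
    apply tendsto_integral_of_dominated_convergence
      (fun z : ℂ => ((3 * B * C + 2 * C) * (1 + ‖z‖) ^ (-2 : ℝ)) ^ q)
    · intro n
      exact ((continuous_dz (tr_smooth hφ n)).norm.rpow_const
        (fun _ => Or.inr (by linarith))).aestronglyMeasurable
    · exact maj_integrable _ q hq
    · intro n
      refine Eventually.of_forall fun z => ?_
      rw [Real.norm_eq_abs, abs_of_nonneg (by positivity)]
      exact Real.rpow_le_rpow (norm_nonneg _)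
        ((norm_dz_le _ z).trans (tr_bound hφ hB0 hB hC n z)) (by linarith)
    · refine Eventually.of_forall fun z => ?_
      apply tendsto_const_nhds.congr'
      filter_upwards [hev z] with n hn
      rw [dz_congr hn]
  refine le_of_tendsto_of_tendsto' h1 (h2.const_mul _) fun n => ?_
  exact hIW q hpq (tr φ n) (tr_smooth hφ n) (tr_compact φ n)

end Pool.Agent.W439.IW.Cut
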